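import Pool.Agent.Y554.SN.Stm2
import Pool.Agent.H389R2.NS.SumSp

/-!
Project SN: parts UUA and AB (elementary properties of the two-layer block probabilities).
-/

set_option autoImplicit false

namespace Pool.Agent.Y179.SN

open H974 H12S H389NS Finset Pool.Agent.Y554.SN

theorem UA_mono {p : Edg → ℝ} (hp : Ok p) {S W : Finset Edg} {A B : Finset Edg → Prop}
    (h : ∀ F, A F → B F) : UA p S W A ≤ UA p S W B := by
  unfold UA UU
  refine Ex_mono hp fun G _ => ?_
  have h0 : 0 ≤ Ex p W (fun Y => ind (A (G ∪ Y))) := Ex_nonneg hp fun _ _ => ind_nonneg _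
  have h1 : Ex p W (fun Y => ind (A (G ∪ Y))) ≤ Ex p W (fun Y => ind (B (G ∪ Y))) :=
    Ex_mono hp fun Y _ => ind_mono (h _)
  exact pow_le_pow_left₀ h0 h1 2

theorem UA_le_one {p : Edg → ℝ} (hp : Ok p) (S W : Finset Edg) (A : Finset Edg → Prop) :
    UA p S W A ≤ 1 := by
  unfold UA UU
  have h : Ex p (S \ W) (fun G => (Ex p W (fun Y => ind (A (G ∪ Y)))) ^ 2) ≤
      Ex p (S \ W) (fun _ => (1:ℝ)) := by
    refine Ex_mono hp fun G _ => ?_
    have h0 : 0 ≤ Ex p W (fun Y => ind (A (G ∪ Y))) := Ex_nonneg hp fun _ _ => ind_nonneg _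
    have h1 : Ex p W (fun Y => ind (A (G ∪ Y))) ≤ 1 := by
      have := Ex_mono hp (S := W) (f := fun Y => ind (A (G ∪ Y))) (g := fun _ => (1:ℝ))
        (fun Y _ => ind_le_one _)
      rwa [Ex_const] at this
    exact pow_le_one₀ h0 h1
  rwa [Ex_const] at h

theorem UA_nonneg {p : Edg → ℝ} (hp : Ok p) (S W : Finset Edg) (A : Finset Edg → Prop) :
    0 ≤ UA p S W A := by
  unfold UA UU
  exact Ex_nonneg hp fun _ _ => sq_nonneg _

theorem sp_nonneg {p : Edg → ℝ} (hp : Ok p) (S V : Finset Edg) (f : Finset Edg → ℝ)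
    (T : Finset Edg) : 0 ≤ sp p S V f T := by
  unfold sp
  exact Ex_nonneg hp fun _ _ => sq_nonneg _

theorem cn_mono {I J : Set Vtx} {F G : Set Edg} (h : F ⊆ G) (hc : Cn I J F) : Cn I J G := by
  obtain ⟨u, hu, v, hv, hr⟩ := hc
  exact ⟨u, hu, v, hv, hr.mono h⟩

theorem bpv_mono {I J : Set Vtx} {b b' : Finset Edg} (h : b ⊆ b') {F : Set Edg}
    (hF : BPv I J b F) : BPv I J b' F := by
  have hb : (↑b : Set Edg) ⊆ ↑b' := Finset.coe_subset.2 h
  refine ⟨cn_mono (Set.union_subset_union_right _ hb) hF.1, fun h2 => hF.2 (cn_mono ?_ h2)⟩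
  exact Set.sdiff_subset_sdiff_right hb

theorem bpv_hA {I J : Set Vtx} (B F : Finset Edg) :
    BPv I J B (↑F : Set Edg) ↔ BPv I J B (↑(F \ B) : Set Edg) := by
  unfold BPv
  rw [Finset.coe_sdiff, Set.sdiff_union_self, Set.sdiff_sdiff, Set.union_self]

theorem fC_hit {I J : Set Vtx} (B F F' : Finset Edg) (h : F \ B = F' \ B) :
    |fC I J F - fC I J F'| ≤ ind (BPv I J B (↑F : Set Edg)) := by
  have hs : (↑F : Set Edg) \ ↑B = (↑F' : Set Edg) \ ↑B := by
    rw [← Finset.coe_sdiff, ← Finset.coe_sdiff, h]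
  have hu : (↑F : Set Edg) ∪ ↑B = (↑F' : Set Edg) ∪ ↑B := by
    rw [← Set.sdiff_union_self, hs, Set.sdiff_union_self]
  unfold fC
  by_cases hb : BPv I J B (↑F : Set Edg)
  · rw [ind_of hb, abs_le]
    have h1 := ind_nonneg (Cn I J (↑F : Set Edg))
    have h2 := ind_le_one (Cn I J (↑F : Set Edg))
    have h3 := ind_nonneg (Cn I J (↑F' : Set Edg))
    have h4 := ind_le_one (Cn I J (↑F' : Set Edg))
    constructor <;> linarith
  · rw [ind_not_of hb]
    have hcase : ¬ Cn I J ((↑F : Set Edg) ∪ ↑B) ∨ Cn I J ((↑F : Set Edg) \ ↑B) := by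
      unfold BPv at hb
      tauto
    rcases hcase with h1 | h1
    · have a1 : ¬ Cn I J (↑F : Set Edg) := fun h => h1 (cn_mono Set.subset_union_left h)
      have a2 : ¬ Cn I J (↑F' : Set Edg) := by
        intro h
        rw [hu] at h1
        exact h1 (cn_mono Set.subset_union_left h)
      rw [ind_not_of a1, ind_not_of a2]
      norm_num
    · have a1 : Cn I J (↑F : Set Edg) := cn_mono Set.sdiff_subset h1
      have a2 : Cn I J (↑F' : Set Edg) := by
        rw [hs] at h1
        exact cn_mono Set.sdiff_subset h1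
      rw [ind_of a1, ind_of a2]
      norm_num

/-- Jensen's inequality for the square. -/
theorem sq_Ex_le {E : Type*} [DecidableEq E] {p : E → ℝ} (hp : Ok p) (S : Finset E)
    (h : Finset E → ℝ) : (Ex p S h) ^ 2 ≤ Ex p S (fun F => (h F) ^ 2) := by
  set m := Ex p S h with hm
  have h1 : 0 ≤ Ex p S (fun F => (h F - m) ^ 2) := Ex_nonneg hp fun _ _ => sq_nonneg _
  have h2 : Ex p S (fun F => (h F - m) ^ 2) =
      Ex p S (fun F => (h F) ^ 2) - 2 * m * Ex p S h + m ^ 2 := by
    rw [← Ex_mul_left, ← Ex_sub]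
    conv_rhs => rw [← Ex_const p S (m ^ 2), ← Ex_add]
    refine Ex_congr fun F _ => ?_
    ring
  rw [h2, ← hm] at h1
  nlinarith

/-- UUA, over an arbitrary type. -/
theorem uua' {E : Type*} [DecidableEq E] {p : E → ℝ} (hp : Ok p) {S W W' : Finset E}
    (f : Finset E → ℝ) (h1 : W ⊆ W') (h2 : W' ⊆ S) : UU p S W' f ≤ UU p S W f := by
  unfold UU
  have hSW : S \ W = (S \ W') ∪ (W' \ W) := by
    ext x
    simp only [Finset.mem_sdiff, Finset.mem_union]
    constructor
    · rintro ⟨a1, a2⟩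
      by_cases hx : x ∈ W'
      · exact Or.inr ⟨hx, a2⟩
      · exact Or.inl ⟨a1, hx⟩
    · rintro (⟨a1, a2⟩ | ⟨a1, a2⟩)
      · exact ⟨a1, fun h => a2 (h1 h)⟩
      · exact ⟨h2 a1, a2⟩
  have hdis : Disjoint (S \ W') (W' \ W) := by
    rw [Finset.disjoint_left]
    intro x hx hx'
    exact (Finset.mem_sdiff.1 hx).2 (Finset.mem_sdiff.1 hx').1
  rw [hSW, Ex_union hdis]
  refine Ex_mono hp fun G _ => ?_
  rw [Ex_split h1]
  refine (sq_Ex_le hp _ _).trans (le_of_eq ?_)
  refine Ex_congr fun Z _ => ?_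
  simp only [Finset.union_assoc]

theorem uua : S_UUA := fun _ hp _ _ _ f h1 h2 => uua' hp f h1 h2

theorem okc {h : ℝ} (h0 : 0 ≤ h) (h1 : h ≤ 1) : Ok (fun _ : Edg => h) := fun _ => ⟨h0, h1⟩

/-- Probability that the random set does not meet `T`. -/
theorem Ex_disj (h : ℝ) {V T : Finset Edg} (hT : T ⊆ V) :
    Ex (fun _ => h) V (fun W => ind (Disjoint T W)) = (1 - h) ^ T.card := by
  have h1 : Ex (fun _ : Edg => h) V (fun W => ind (Disjoint T W)) =
      Ex (fun _ : Edg => h) T (fun W => ind (Disjoint T W)) := by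
    refine Ex_local hT fun F _ => ?_
    refine ind_congr ?_
    rw [Finset.disjoint_left, Finset.disjoint_left]
    constructor
    · intro a x hx hx'
      exact a hx (Finset.mem_inter.1 hx').1
    · intro a x hx hx'
      exact a hx (Finset.mem_inter.2 ⟨hx', hx⟩)
  rw [h1]
  unfold Ex
  rw [Finset.sum_eq_single (∅ : Finset Edg)]
  · beta_reduce
    rw [ind_of (Finset.disjoint_empty_right T)]
    simp
  · intro F hF hne
    have hFT := Finset.mem_powerset.1 hF
    have : ¬ Disjoint T F := by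
      intro hd
      apply hne
      rw [Finset.eq_empty_iff_forall_notMem]
      intro x hx
      exact Finset.disjoint_left.1 hd (hFT hx) hx
    beta_reduce
    rw [ind_not_of this, mul_zero]
  · intro hne
    exact absurd (Finset.empty_mem_powerset T) hne

theorem ab : S_AB := by
  classical
  intro p hp S V I J hVS
  have hmono1 : ∀ (b b' : Finset Edg), b ⊆ b' → ∀ W : Finset Edg, W ⊆ V →
      UA p S (W \ b) (fun F => BPv I J b ↑F) ≤ UA p S (W \ b') (fun F => BPv I J b' ↑F) := by
    intro b b' hbb W hW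
    have h1 : UA p S (W \ b) (fun F => BPv I J b ↑F) ≤
        UA p S (W \ b) (fun F => BPv I J b' ↑F) :=
      UA_mono hp fun F hF => bpv_mono hbb hF
    have h2 : UA p S (W \ b) (fun F => BPv I J b' ↑F) ≤
        UA p S (W \ b') (fun F => BPv I J b' ↑F) :=
      uua' hp _ (Finset.sdiff_subset_sdiff (Finset.Subset.refl W) hbb)
        (Finset.sdiff_subset.trans (hW.trans hVS))
    exact h1.trans h2
  refine ⟨?_, ?_, ?_, ?_⟩
  · intro b b' h hbb h0 h1
    unfold aB
    exact Ex_mono (okc h0 h1) fun W hW => hmono1 b b' hbb W hW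
  · intro b h h' h0 hh h1
    unfold aB
    have hinc : Incr V (fun W => -UA p S (W \ b) (fun F => BPv I J b ↑F)) := by
      intro A B hAB hBV
      have := uua' (p := p) hp (S := S) (W := A \ b) (W' := B \ b)
        (fun F => ind (BPv I J b (↑F : Set Edg)))
        (Finset.sdiff_subset_sdiff hAB (Finset.Subset.refl b))
        (Finset.sdiff_subset.trans (hBV.trans hVS))
      exact neg_le_neg this
    have h2 := Ex_mono_param (p := fun _ : Edg => h) (q := fun _ : Edg => h')
      (okc h0 (hh.trans h1)) (okc (h0.trans hh) h1) (fun _ => hh) hinc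
    have e : ∀ t : ℝ, Ex (fun _ : Edg => t) V
        (fun W => -UA p S (W \ b) (fun F => BPv I J b ↑F)) =
        - Ex (fun _ : Edg => t) V (fun W => UA p S (W \ b) (fun F => BPv I J b ↑F)) := by
      intro t
      have := Ex_mul_left (fun _ : Edg => t) V (-1)
        (fun W => UA p S (W \ b) (fun F => BPv I J b ↑F))
      simpa using this
    rw [e, e] at h2
    linarith
  · intro b h h0 h1
    unfold aB
    exact ⟨Ex_nonneg (okc h0 h1) fun W _ => UA_nonneg hp _ _ _,
      Ex_le_of_le (okc h0 h1) fun W _ => UA_le_one hp _ _ _⟩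
  · intro hV2 b h hbV h0 h1
    unfold aB
    have e1 : ∑ T ∈ V.powerset.filter (fun T => ¬ Disjoint T b),
        sp p S V (fC I J) T * (1 - h) ^ T.card =
        Ex (fun _ => h) V (fun W => ∑ T ∈ V.powerset.filter (fun T => ¬ Disjoint T b),
          sp p S V (fC I J) T * ind (Disjoint T W)) := by
      rw [Ex_sum]
      refine Finset.sum_congr rfl fun T hT => ?_
      rw [Ex_mul_left, Ex_disj h (Finset.mem_powerset.1 (Finset.mem_filter.1 hT).1)]
    rw [e1]
    refine Ex_mono (okc h0 h1) fun W hW => ?_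
    have hWb : W \ b ⊆ V := Finset.sdiff_subset.trans hW
    have hB : b ⊆ V \ (W \ b) := by
      intro x hx
      rw [Finset.mem_sdiff]
      exact ⟨hbV hx, fun h' => (Finset.mem_sdiff.1 h').2 hx⟩
    have h3 := sum_sp_hit (p := p) hp (S := S) (V := V) (W := W \ b) (B := b) hVS hV2 hWb hB
      (f := fC I J) (A := fun F => BPv I J b ↑F)
      (fun F _ => bpv_hA _ F) (fun F F' _ _ h' => fC_hit _ F F' h')
    refine le_trans ?_ h3
    have e2 : ∑ T ∈ V.powerset.filter (fun T => ¬ Disjoint T b),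
        sp p S V (fC I J) T * ind (Disjoint T W) =
        ∑ T ∈ (V.powerset.filter (fun T => ¬ Disjoint T b)).filter (fun T => Disjoint T W),
          sp p S V (fC I J) T := by
      rw [Finset.sum_filter (fun T => Disjoint T W)]
      refine Finset.sum_congr rfl fun T _ => ?_
      by_cases hd : Disjoint T W
      · rw [ind_of hd, if_pos hd, mul_one]
      · rw [ind_not_of hd, if_neg hd, mul_zero]
    rw [e2]
    refine Finset.sum_le_sum_of_subset_of_nonneg ?_ fun T _ _ => sp_nonneg hp _ _ _ _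
    intro T hT
    rw [Finset.mem_filter, Finset.mem_filter, Finset.mem_powerset] at hT
    rw [Finset.mem_filter, Finset.mem_powerset]
    refine ⟨?_, hT.1.2⟩
    intro x hx
    rw [Finset.mem_sdiff]
    exact ⟨hT.1.1 hx, fun h' => Finset.disjoint_left.1 hT.2 hx (Finset.mem_sdiff.1 h').1⟩

end Pool.Agent.Y179.SN
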