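import Mathlib

/-! SN-SUM: one-dimensional sums (helper179). -/

set_option autoImplicit false

namespace Pool.Agent.Y179.SN

open Finset

theorem sum_pow (M : ℕ) : ∑ m ∈ range M, ((m : ℝ) + 1) ^ (-(11 / 12) : ℝ) ≤
    12 * (M : ℝ) ^ (1 / 12 : ℝ) := by
  induction M with
  | zero => simp
  | succ M ih =>
    rw [sum_range_succ]
    push_cast
    set x : ℝ := (M : ℝ) + 1 with hx
    have hx1 : 1 ≤ x := by
      have : (0 : ℝ) ≤ M := Nat.cast_nonneg M
      linarith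
    have hx0 : 0 < x := by linarith
    have h1 : (M : ℝ) = x * (1 + (-(1 / x))) := by
      rw [hx]
      field_simp
      ring
    have h2 : (M : ℝ) ^ (1 / 12 : ℝ) ≤ x ^ (1 / 12 : ℝ) * (1 + (1 / 12) * (-(1 / x))) := by
      have h3 : -1 ≤ -(1 / x) := by
        rw [neg_le_neg_iff, div_le_one hx0]
        exact hx1
      rw [h1, Real.mul_rpow hx0.le (by linarith)]
      exact mul_le_mul_of_nonneg_left
        (rpow_one_add_le_one_add_mul_self h3 (by norm_num) (by norm_num)) (by positivity)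
    have h4 : x ^ (-(11 / 12) : ℝ) = x ^ (1 / 12 : ℝ) * (1 / x) := by
      rw [one_div x, ← Real.rpow_neg_one x, ← Real.rpow_add hx0]
      norm_num
    rw [h4]
    nlinarith

/-- truncated distance -/
def X (n r D : ℕ) (a : ℤ) : ℕ := min D (max r (n - |a|).toNat)

theorem X_pos {n r D : ℕ} (hr : 1 ≤ r) (hD : r ≤ D) (a : ℤ) : 0 < X n r D a := by
  unfold X
  omega

/-- the points near the boundary, on one side -/
theorem side {n r D : ℕ} (hr : 1 ≤ r) (hD : r ≤ D) (A : Finset ℤ)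
    (hA : ∀ a ∈ A, |a| ≤ n ∧ (n : ℤ) - |a| < D ∧ (r : ℤ) ∣ a)
    (hs : (∀ a ∈ A, 0 ≤ a) ∨ ∀ a ∈ A, a < 0) :
    ∑ a ∈ A, (X n r D a : ℝ) ^ (-(11 / 12) : ℝ) ≤ 13 * ((D : ℝ) ^ (1 / 12 : ℝ) / r) := by
  classical
  have hr0 : (0 : ℝ) < r := by exact_mod_cast hr
  have hDr : (r : ℝ) ≤ D := by exact_mod_cast hD
  have hD0 : (0 : ℝ) < D := by linarith
  -- the number of the block
  let f : ℤ → ℕ := fun a => ((n : ℤ) - |a|).toNat / r
  have hf : Set.InjOn f A := by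
    intro a ha b hb hab
    obtain ⟨ha1, -, a', ha'⟩ := hA a ha
    obtain ⟨hb1, -, b', hb'⟩ := hA b hb
    have h1 : |a| = |b| := by
      obtain ⟨u, hu⟩ : ∃ u : ℕ, (n : ℤ) - |a| = u := ⟨((n : ℤ) - |a|).toNat, by omega⟩
      obtain ⟨v, hv⟩ : ∃ v : ℕ, (n : ℤ) - |b| = v := ⟨((n : ℤ) - |b|).toNat, by omega⟩
      have huv : u / r = v / r := by
        have h2 : f a = u / r := by simp only [f]; rw [hu, Int.toNat_natCast]
        have h3 : f b = v / r := by simp only [f]; rw [hv, Int.toNat_natCast]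
        rw [← h2, ← h3]
        exact hab
      have hd : (r : ℤ) ∣ (u : ℤ) - v := by
        have h4 : (r : ℤ) ∣ |a| := (dvd_abs _ _).2 ⟨a', ha'⟩
        have h5 : (r : ℤ) ∣ |b| := (dvd_abs _ _).2 ⟨b', hb'⟩
        have h6 : (u : ℤ) - v = |b| - |a| := by linarith
        rw [h6]
        exact dvd_sub h5 h4
      have hu2 := Nat.div_add_mod u r
      have hv2 := Nat.div_add_mod v r
      have hu3 := Nat.mod_lt u hr
      have hv3 := Nat.mod_lt v hr
      rw [huv] at hu2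
      have h7 : (u : ℤ) - v = (u % r : ℕ) - (v % r : ℕ) := by
        have e1 : (u : ℤ) = (r * (v / r) : ℕ) + (u % r : ℕ) := by exact_mod_cast hu2.symm
        have e2 : (v : ℤ) = (r * (v / r) : ℕ) + (v % r : ℕ) := by exact_mod_cast hv2.symm
        rw [e1]
        conv_lhs => rw [e2]
        ring
      have h8 : |(u : ℤ) - v| < r := by
        rw [h7, abs_lt]
        constructor <;> omega
      have h9 := Int.eq_zero_of_abs_lt_dvd hd h8
      linarith
    rcases hs with hs | hs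
    · have h2 := hs a ha
      have h3 := hs b hb
      rwa [abs_of_nonneg h2, abs_of_nonneg h3] at h1
    · have h2 := hs a ha
      have h3 := hs b hb
      rw [abs_of_neg h2, abs_of_neg h3] at h1
      linarith
  have hfM : ∀ a ∈ A, f a < D / r + 1 := by
    intro a ha
    obtain ⟨ha1, ha2, -⟩ := hA a ha
    have : ((n : ℤ) - |a|).toNat ≤ D := by omega
    have h2 : f a ≤ D / r := Nat.div_le_div_right this
    omega
  have hval : ∀ a ∈ A, (X n r D a : ℝ) ^ (-(11 / 12) : ℝ) ≤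
      (r : ℝ) ^ (-(11 / 12) : ℝ) * (max 1 (f a : ℝ)) ^ (-(11 / 12) : ℝ) := by
    intro a ha
    obtain ⟨ha1, ha2, -⟩ := hA a ha
    have h1 : (r : ℝ) * max 1 (f a : ℝ) ≤ X n r D a := by
      rcases le_total 1 (f a) with h | h
      · rw [max_eq_right (by exact_mod_cast h)]
        have h2 : r * f a ≤ X n r D a := by
          have h3 : r * f a ≤ ((n : ℤ) - |a|).toNat := Nat.mul_div_le _ _
          unfold X
          omega
        exact_mod_cast h2
      · rw [max_eq_left (by exact_mod_cast h), mul_one]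
        have h2 : r ≤ X n r D a := by
          unfold X
          omega
        exact_mod_cast h2
    have h2 : (0 : ℝ) < max 1 (f a : ℝ) := lt_of_lt_of_le one_pos (le_max_left _ _)
    rw [← Real.mul_rpow hr0.le h2.le]
    exact Real.rpow_le_rpow_of_nonpos (mul_pos hr0 h2) h1 (by norm_num)
  have hsum : ∑ a ∈ A, (max 1 (f a : ℝ)) ^ (-(11 / 12) : ℝ) ≤
      ∑ m ∈ range (D / r + 1), (max 1 (m : ℝ)) ^ (-(11 / 12) : ℝ) := by
    rw [← sum_image (f := fun m : ℕ => (max 1 (m : ℝ)) ^ (-(11 / 12) : ℝ)) hf]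
    refine sum_le_sum_of_subset_of_nonneg ?_ fun _ _ _ => by positivity
    intro m hm
    obtain ⟨a, ha, rfl⟩ := mem_image.1 hm
    exact mem_range.2 (hfM a ha)
  have hM1 : (1 : ℝ) ≤ (D : ℝ) / r := by rwa [le_div_iff₀ hr0, one_mul]
  have hsum2 : ∑ m ∈ range (D / r + 1), (max 1 (m : ℝ)) ^ (-(11 / 12) : ℝ) ≤
      13 * ((D : ℝ) / r) ^ (1 / 12 : ℝ) := by
    rw [sum_range_succ']
    have h1 : ∀ m : ℕ, (max 1 ((m + 1 : ℕ) : ℝ)) ^ (-(11 / 12) : ℝ) =
        ((m : ℝ) + 1) ^ (-(11 / 12) : ℝ) := by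
      intro m
      rw [max_eq_right (by push_cast; have : (0 : ℝ) ≤ m := Nat.cast_nonneg m; linarith)]
      push_cast
      rfl
    simp only [h1]
    have h2 := sum_pow (D / r)
    have h3 : (((D / r : ℕ)) : ℝ) ^ (1 / 12 : ℝ) ≤ ((D : ℝ) / r) ^ (1 / 12 : ℝ) :=
      Real.rpow_le_rpow (Nat.cast_nonneg _) Nat.cast_div_le (by norm_num)
    have h4 : (1 : ℝ) ≤ ((D : ℝ) / r) ^ (1 / 12 : ℝ) := Real.one_le_rpow hM1 (by norm_num)
    have h5 : (max 1 ((0 : ℕ) : ℝ)) ^ (-(11 / 12) : ℝ) = 1 := by simp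
    rw [h5]
    linarith
  calc ∑ a ∈ A, (X n r D a : ℝ) ^ (-(11 / 12) : ℝ) ≤
      ∑ a ∈ A, (r : ℝ) ^ (-(11 / 12) : ℝ) * (max 1 (f a : ℝ)) ^ (-(11 / 12) : ℝ) :=
        sum_le_sum hval
    _ = (r : ℝ) ^ (-(11 / 12) : ℝ) * ∑ a ∈ A, (max 1 (f a : ℝ)) ^ (-(11 / 12) : ℝ) := by
        rw [mul_sum]
    _ ≤ (r : ℝ) ^ (-(11 / 12) : ℝ) * (13 * ((D : ℝ) / r) ^ (1 / 12 : ℝ)) :=
        mul_le_mul_of_nonneg_left (hsum.trans hsum2) (by positivity)
    _ = 13 * ((D : ℝ) ^ (1 / 12 : ℝ) / r) := by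
        rw [Real.div_rpow hD0.le hr0.le]
        have h1 : (r : ℝ) ^ (-(11 / 12) : ℝ) = (r : ℝ) ^ (1 / 12 : ℝ) / r := by
          have h2 : (r : ℝ) ^ (1 / 12 : ℝ) / r = (r : ℝ) ^ (1 / 12 - 1 : ℝ) := by
            rw [Real.rpow_sub_one hr0.ne']
          rw [h2]
          norm_num
        rw [h1]
        have h3 : (r : ℝ) ^ (1 / 12 : ℝ) ≠ 0 := by positivity
        field_simp

/-- the number of multiples of `r` in a window -/
theorem card_window {r D : ℕ} (hr : 1 ≤ r) (hD : r ≤ D) (w : ℤ) (A : Finset ℤ)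
    (hA : ∀ a ∈ A, |a - w| ≤ D ∧ (r : ℤ) ∣ a) : (A.card : ℝ) ≤ 3 * ((D : ℝ) / r) := by
  classical
  have hr0 : (0 : ℝ) < r := by exact_mod_cast hr
  have hrz : (0 : ℤ) < r := by exact_mod_cast hr
  have h1 : A.card ≤ (Icc (0 : ℤ) (2 * D / r)).card := by
    rcases A.eq_empty_or_nonempty with h0 | h0
    · rw [h0, card_empty]
      exact Nat.zero_le _
    obtain ⟨a0, ha0, hmin⟩ := A.exists_min_image id h0
    refine card_le_card_of_injOn (fun a => (a - a0) / r) ?_ ?_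
    · intro a ha
      obtain ⟨h2, h3⟩ := hA a ha
      obtain ⟨h4, h5⟩ := hA a0 ha0
      have h6 : a0 ≤ a := hmin a ha
      rw [coe_Icc, Set.mem_Icc]
      refine ⟨Int.ediv_nonneg (by linarith) hrz.le, Int.ediv_le_ediv hrz ?_⟩
      rw [abs_le] at h2 h4
      linarith
    · intro a ha b hb hab
      obtain ⟨-, h3⟩ := hA a ha
      obtain ⟨-, h4⟩ := hA b hb
      obtain ⟨-, h5⟩ := hA a0 ha0
      have h6 := Int.ediv_mul_cancel (dvd_sub h3 h5)
      have h7 := Int.ediv_mul_cancel (dvd_sub h4 h5)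
      simp only at hab
      rw [hab, h7] at h6
      linarith
  have h2 : (Icc (0 : ℤ) (2 * D / r)).card = 2 * D / r + 1 := by
    rw [Int.card_Icc]
    have : (2 * (D : ℤ) / r) = ((2 * D / r : ℕ) : ℤ) := by push_cast; rfl
    rw [this]
    generalize 2 * D / r = k
    omega
  rw [h2] at h1
  have h3 : (A.card : ℝ) ≤ ((2 * D / r : ℕ) : ℝ) + 1 := by exact_mod_cast h1
  have h4 : ((2 * D / r : ℕ) : ℝ) ≤ ((2 * D : ℕ) : ℝ) / r := Nat.cast_div_le
  have h5 : (1 : ℝ) ≤ (D : ℝ) / r := by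
    rw [le_div_iff₀ hr0, one_mul]
    exact_mod_cast hD
  have h6 : ((2 * D : ℕ) : ℝ) / r = 2 * ((D : ℝ) / r) := by push_cast; ring
  rw [h6] at h4
  linarith

/-- the one-dimensional sum -/
theorem line {n r D : ℕ} (hr : 1 ≤ r) (hD : r ≤ D) (w : ℤ) (A : Finset ℤ)
    (hA : ∀ a ∈ A, |a| ≤ n ∧ |a - w| ≤ D ∧ (r : ℤ) ∣ a) :
    ∑ a ∈ A, (X n r D a : ℝ) ^ (-(11 / 12) : ℝ) ≤ 29 * ((D : ℝ) ^ (1 / 12 : ℝ) / r) := by
  classical
  have hr0 : (0 : ℝ) < r := by exact_mod_cast hr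
  have hD0 : (0 : ℝ) < D := by
    have : (r : ℝ) ≤ D := by exact_mod_cast hD
    linarith
  rw [← sum_filter_add_sum_filter_not A fun a => (D : ℤ) ≤ (n : ℤ) - |a|,
    ← sum_filter_add_sum_filter_not (A.filter fun a => ¬ (D : ℤ) ≤ (n : ℤ) - |a|) fun a => 0 ≤ a]
  have h1 : ∑ a ∈ A.filter (fun a => (D : ℤ) ≤ (n : ℤ) - |a|), (X n r D a : ℝ) ^ (-(11 / 12) : ℝ) ≤
      3 * ((D : ℝ) ^ (1 / 12 : ℝ) / r) := by
    have h2 : ∀ a ∈ A.filter (fun a => (D : ℤ) ≤ (n : ℤ) - |a|),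
        (X n r D a : ℝ) ^ (-(11 / 12) : ℝ) = (D : ℝ) ^ (-(11 / 12) : ℝ) := by
      intro a ha
      have h3 := (mem_filter.1 ha).2
      have h4 : X n r D a = D := by
        unfold X
        omega
      rw [h4]
    rw [sum_congr rfl h2, sum_const, nsmul_eq_mul]
    have h5 := card_window hr hD w (A.filter (fun a => (D : ℤ) ≤ (n : ℤ) - |a|)) (fun a ha => by
      have := hA a (mem_filter.1 ha).1
      exact ⟨this.2.1, this.2.2⟩)
    have h6 : (D : ℝ) ^ (-(11 / 12) : ℝ) = (D : ℝ) ^ (1 / 12 : ℝ) / D := by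
      have h2 : (D : ℝ) ^ (1 / 12 : ℝ) / D = (D : ℝ) ^ (1 / 12 - 1 : ℝ) := by
        rw [Real.rpow_sub_one hD0.ne']
      rw [h2]
      norm_num
    rw [h6]
    calc _ ≤ (3 * ((D : ℝ) / r)) * ((D : ℝ) ^ (1 / 12 : ℝ) / D) :=
          mul_le_mul_of_nonneg_right h5 (by positivity)
      _ = _ := by field_simp
  have h2 := side (n := n) hr hD ((A.filter fun a => ¬ (D : ℤ) ≤ (n : ℤ) - |a|).filter
      fun a => 0 ≤ a) (fun a ha => by
      have h3 := mem_filter.1 (mem_filter.1 ha).1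
      have h4 := hA a h3.1
      exact ⟨h4.1, not_le.1 h3.2, h4.2.2⟩) (Or.inl fun a ha => (mem_filter.1 ha).2)
  have h3 := side (n := n) hr hD ((A.filter fun a => ¬ (D : ℤ) ≤ (n : ℤ) - |a|).filter
      fun a => ¬ 0 ≤ a) (fun a ha => by
      have h3 := mem_filter.1 (mem_filter.1 ha).1
      have h4 := hA a h3.1
      exact ⟨h4.1, not_le.1 h3.2, h4.2.2⟩) (Or.inr fun a ha => not_le.1 (mem_filter.1 ha).2)
  linarith

end Pool.Agent.Y179.SN
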