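import Pool.Agent.Y554.SN.Stm
import Pool.Agent.Y179.SN.Sum1

/-! SN-SUM (helper179). -/

set_option autoImplicit false

namespace Pool.Agent.Y179.SN

open Finset Pool.Agent.Y554.SN

theorem qc_le {n r D : ℕ} (hr : 1 ≤ r) (hD : r ≤ D) (c : ℤ × ℤ) :
    qc n c r D ≤ (r : ℝ) ^ (5 / 2 : ℝ) * (D : ℝ) ^ (-(2 / 3) : ℝ) *
      ((X n r D c.1 : ℝ) ^ (-(11 / 12) : ℝ) * (X n r D c.2 : ℝ) ^ (-(11 / 12) : ℝ)) := by
  have hr0 : (0 : ℝ) < r := by exact_mod_cast hr
  have hD0 : (0 : ℝ) < D := by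
    have : (r : ℝ) ≤ D := by exact_mod_cast hD
    linarith
  have key : ∀ u v : ℕ, 0 < u → u ≤ v → B1 n c r D = u → B2 n c r D = v →
      qc n c r D ≤ (r : ℝ) ^ (5 / 2 : ℝ) * (D : ℝ) ^ (-(2 / 3) : ℝ) *
      ((u : ℝ) ^ (-(11 / 12) : ℝ) * (v : ℝ) ^ (-(11 / 12) : ℝ)) := by
    intro u v hu huv h1 h2
    have hu0 : (0 : ℝ) < u := by exact_mod_cast hu
    have huv' : (u : ℝ) ≤ v := by exact_mod_cast huv
    have hv0 : (0 : ℝ) < v := by linarith
    unfold qc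
    rw [h1, h2]
    rw [Real.rpow_def_of_pos (div_pos hr0 hu0), Real.rpow_def_of_pos (div_pos hu0 hv0),
      Real.rpow_def_of_pos (div_pos hv0 hD0), Real.rpow_def_of_pos hr0, Real.rpow_def_of_pos hD0,
      Real.rpow_def_of_pos hu0, Real.rpow_def_of_pos hv0, ← Real.exp_add, ← Real.exp_add,
      ← Real.exp_add, ← Real.exp_add, ← Real.exp_add, Real.exp_le_exp,
      Real.log_div hr0.ne' hu0.ne', Real.log_div hu0.ne' hv0.ne', Real.log_div hv0.ne' hD0.ne']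
    have := Real.log_le_log hu0 huv'
    nlinarith
  rcases le_total |c.1| |c.2| with h | h
  · have e1 : B1 n c r D = X n r D c.2 := by
      unfold B1 b1 X
      rw [max_eq_right h]
    have e2 : B2 n c r D = X n r D c.1 := by
      unfold B2 b2 X
      rw [min_eq_left h]
    rw [mul_comm ((X n r D c.1 : ℝ) ^ (-(11 / 12) : ℝ))]
    refine key _ _ (X_pos hr hD _) ?_ e1 e2
    unfold X
    omega
  · have e1 : B1 n c r D = X n r D c.1 := by
      unfold B1 b1 X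
      rw [max_eq_left h]
    have e2 : B2 n c r D = X n r D c.2 := by
      unfold B2 b2 X
      rw [min_eq_right h]
    refine key _ _ (X_pos hr hD _) ?_ e1 e2
    unfold X
    omega

theorem sumqc : S_SUM := by
  classical
  refine ⟨29 ^ 2, by norm_num, ?_⟩
  intro n r D w hr hrD hDn G hG
  have hr0 : (0 : ℝ) < r := by exact_mod_cast hr
  have hD0 : (0 : ℝ) < D := by
    have : (r : ℝ) ≤ D := by exact_mod_cast hrD
    linarith
  have hsub : G ⊆ (G.image Prod.fst) ×ˢ (G.image Prod.snd) := by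
    intro c hc
    exact mem_product.2 ⟨mem_image_of_mem _ hc, mem_image_of_mem _ hc⟩
  have h1 := line (n := n) hr hrD w.1 (G.image Prod.fst) (fun a ha => by
    obtain ⟨c, hc, rfl⟩ := mem_image.1 ha
    have := hG c hc
    exact ⟨this.1, this.2.2.1, this.2.2.2.2.1⟩)
  have h2 := line (n := n) hr hrD w.2 (G.image Prod.snd) (fun a ha => by
    obtain ⟨c, hc, rfl⟩ := mem_image.1 ha
    have := hG c hc
    exact ⟨this.2.1, this.2.2.2.1, this.2.2.2.2.2⟩)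
  set K : ℝ := (r : ℝ) ^ (5 / 2 : ℝ) * (D : ℝ) ^ (-(2 / 3) : ℝ) with hK
  have hK0 : 0 ≤ K := by positivity
  calc ∑ c ∈ G, qc n c r D ≤ ∑ c ∈ G, K * ((X n r D c.1 : ℝ) ^ (-(11 / 12) : ℝ) *
        (X n r D c.2 : ℝ) ^ (-(11 / 12) : ℝ)) := sum_le_sum fun c _ => qc_le hr hrD c
    _ ≤ ∑ c ∈ (G.image Prod.fst) ×ˢ (G.image Prod.snd), K * ((X n r D c.1 : ℝ) ^ (-(11 / 12) : ℝ) *
        (X n r D c.2 : ℝ) ^ (-(11 / 12) : ℝ)) :=
        sum_le_sum_of_subset_of_nonneg hsub fun _ _ _ => by positivity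
    _ = K * ((∑ a ∈ G.image Prod.fst, (X n r D a : ℝ) ^ (-(11 / 12) : ℝ)) *
        ∑ a ∈ G.image Prod.snd, (X n r D a : ℝ) ^ (-(11 / 12) : ℝ)) := by
        rw [← mul_sum, sum_product, sum_mul_sum]
    _ ≤ K * ((29 * ((D : ℝ) ^ (1 / 12 : ℝ) / r)) * (29 * ((D : ℝ) ^ (1 / 12 : ℝ) / r))) := by
        refine mul_le_mul_of_nonneg_left (mul_le_mul h1 h2 (sum_nonneg fun _ _ => by positivity)
          (by positivity)) hK0
    _ = 29 ^ 2 * ((r : ℝ) / D) ^ (1 / 2 : ℝ) := by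
        have e1 : ((r : ℝ) / D) ^ (1 / 2 : ℝ) = K * (((D : ℝ) ^ (1 / 12 : ℝ) / r) *
            ((D : ℝ) ^ (1 / 12 : ℝ) / r)) := by
          have e2 : (D : ℝ) ^ (1 / 12 : ℝ) / r = (D : ℝ) ^ (1 / 12 : ℝ) * (r : ℝ) ^ (-1 : ℝ) := by
            rw [Real.rpow_neg_one]
            rfl
          rw [e2, hK, Real.rpow_def_of_pos (div_pos hr0 hD0), Real.rpow_def_of_pos hr0,
            Real.rpow_def_of_pos hD0, Real.rpow_def_of_pos hr0, Real.rpow_def_of_pos hD0,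
            ← Real.exp_add, ← Real.exp_add, ← Real.exp_add, ← Real.exp_add,
            Real.log_div hr0.ne' hD0.ne']
          congr 1
          ring
        rw [e1]
        ring

end Pool.Agent.Y179.SN
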